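import Pool.Agent.KS6_71.FC.Main2

set_option autoImplicit false

namespace Pool.Agent.Results.MP_12ced6_co.AllFibres

open Pool.Agent.Helper22.FC

/-- Every simple polygon `v` bounds exactly one piece of paper `P`, and:

* a set `S` is the set of all points of `P` mapped to one point of the cut line by some flat folding
  of `P` satisfying the fold-and-cut condition (E) if and only if `S` is a finite subset of the
  boundary (`S` = all vertices is the question);
* for every finite set `T` of boundary points and every `ε > 0` there is an interval `[a, b]` of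
  positive length contained in `(0, ε)` such that EVERY function `g` from `T` to `[a, b]` is
  realised by a flat folding with (E), the cut line being the real axis: it sends each `x ∈ T` to
  `g x`, it folds the whole boundary into `[0, b]`, and if `m ≥ a` is an upper bound of `g` on `T`
  then the only points of `P` mapped to `m` are the `x ∈ T` with `g x = m`. -/
theorem result {n : ℕ} (v : Fin (n + 3) → ℂ) (hv : SimplePolygon v) :
    ∃ P : Set ℂ, IsPaper v P ∧ (∀ Q : Set ℂ, IsPaper v Q → Q = P) ∧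
      (∀ S : Set ℂ,
        (∃ (F : FlatFolding P) (L : AffineSubspace ℝ ℂ) (p : ℂ),
          Module.finrank ℝ L.direction = 1 ∧ p ∈ L ∧
          {x | x ∈ P ∧ F.f x ∈ L} = boundary v ∧ {x | x ∈ P ∧ F.f x = p} = S) ↔
        S.Finite ∧ S ⊆ boundary v) ∧
      (∀ T : Finset ℂ, (T : Set ℂ) ⊆ boundary v → ∀ ε : ℝ, 0 < ε →
        ∃ a b : ℝ, 0 < a ∧ a < b ∧ b < ε ∧ ∀ g : ℂ → ℝ, (∀ x ∈ T, a ≤ g x ∧ g x ≤ b) →
          ∃ F : FlatFolding P, {x | x ∈ P ∧ (F.f x).im = 0} = boundary v ∧
            (∀ x ∈ boundary v, 0 ≤ (F.f x).re ∧ (F.f x).re ≤ b) ∧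
            (∀ x ∈ T, F.f x = (g x : ℂ)) ∧
            ∀ m : ℝ, a ≤ m → (∀ x ∈ T, g x ≤ m) →
              {x | x ∈ P ∧ F.f x = (m : ℂ)} = {x | x ∈ T ∧ g x = m}) := by
  obtain ⟨P, hP, hPu, -⟩ := main v hv
  refine ⟨P, hP, hPu, ?_, ?_⟩
  · intro S
    constructor
    · rintro ⟨F, L, p, -, hpL, hE, rfl⟩
      refine ⟨Pool.Agent.KS6_71.FC.fibre_finite F p, ?_⟩
      rintro x ⟨hx, hxp⟩
      rw [← hE]
      exact ⟨hx, by rw [hxp]; exact hpL⟩
    · rintro ⟨hS, hSb⟩
      obtain ⟨a, b, ha, hab, -, H⟩ := Pool.Agent.KS6_71.FC.place_points v hv P hP hS.toFinset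
        (by rw [Set.Finite.coe_toFinset]; exact hSb) 1 one_pos
      obtain ⟨F, h1, -, -, h4⟩ := H (fun _ => b) (fun _ _ => ⟨hab.le, le_rfl⟩)
      refine ⟨F, axis, (b : ℂ), finrank_axis, mem_axis.2 (Complex.ofReal_im b), ?_, ?_⟩
      · rw [← h1]
        ext x
        simp only [Set.mem_ofPred_eq, mem_axis]
      · rw [h4 b hab.le (fun _ _ => le_rfl)]
        ext x
        simp
  · intro T hT ε hε
    exact Pool.Agent.KS6_71.FC.place_points v hv P hP T hT ε hε

end Pool.Agent.Results.MP_12ced6_co.AllFibres
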